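import Mathlib

namespace Pool.Agent.Results.MP_fb2c2a_nt.Full

open Finset

/-- `u ≡ v (mod p^m)` for rationals: `(u - v) / p^m` has denominator prime to `p` -/
def cong (p m : ℕ) (u v : ℚ) : Prop := ¬ p ∣ ((u - v) / (p : ℚ) ^ m).den

instance (p m : ℕ) (u v : ℚ) : Decidable (cong p m u v) := by unfold cong; infer_instance

/-- the polynomial `D_n(x)` -/
def D (n : ℕ) (x : ℚ) : ℚ := ∑ k ∈ range (n + 1), (n.choose k : ℚ) * ((n + k).choose k : ℚ) * x ^ k

theorem result : ¬ ∀ p : ℕ, p.Prime → 3 < p →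
    cong p 2 (∑ k ∈ range p, D k 3 ^ 3)
      ((jacobiSym (-5) p : ℚ) * ∑ k ∈ range p, (-1) ^ k * D k (-1 / 16) ^ 3) := by
  intro h
  have h1 := h 5 (by norm_num) (by norm_num)
  have e : jacobiSym (-5) 5 = 0 := by norm_num
  rw [e] at h1
  revert h1
  simp only [D, Nat.choose_eq_descFactorial_div_factorial]
  decide +kernel

end Pool.Agent.Results.MP_fb2c2a_nt.Full
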